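import Pool.Agent.Helper22_Men.Stmts

/-!
# Squad MEN: module JOIN
-/

open MeasureTheory Set

namespace Pool.Agent.Men.RR.H63

/-- A measurable set which depends only on a set `J` of coordinates depends only on a countable
subset of `J`. -/
theorem depOn_inter {I : Type} {J C : Set I} {A : Set (Pt ℕ I)} (h : DepOn C A) (h' : DepOn J A) :
    DepOn (C ∩ J) A := by
  classical
  intro y y' hy
  let z : Pt ℕ I := fun i => if i ∈ J then y i else y' i
  have h1 : y ∈ A ↔ z ∈ A := h' y z fun i hi => by simp [z, hi]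
  have h2 : z ∈ A ↔ y' ∈ A := h z y' fun i hi => by
    by_cases hJ : i ∈ J
    · simp only [z, hJ, if_true]; exact hy i ⟨hi, hJ⟩
    · simp [z, hJ]
  exact h1.trans h2

theorem exists_countable_depFun {I : Type} {J : Set I} (f : Pt ℕ I → ℕ) (hf : Measurable f)
    (hd : DepFun J f) : ∃ C : Set I, C.Countable ∧ C ⊆ J ∧ DepFun C f := by
  have h1 : ∀ n : ℕ, ∃ C : Set I, C.Countable ∧ DepOn C (f ⁻¹' {n}) := fun n =>
    exists_countable_depOn (hf (measurableSet_singleton n))
  choose C hC hdC using h1
  refine ⟨⋃ n, C n ∩ J, Set.countable_iUnion fun n => (hC n).mono Set.inter_subset_left,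
    Set.iUnion_subset fun n => Set.inter_subset_right, ?_⟩
  intro y y' h
  have h2 : DepOn (C (f y) ∩ J) (f ⁻¹' {f y}) := depOn_inter (hdC _) (by
    intro z z' hz
    simp only [Set.mem_preimage, Set.mem_singleton_iff]
    rw [hd z z' hz])
  have h3 := (h2 y y' fun i hi => h i (Set.mem_iUnion.2 ⟨_, hi⟩)).1 rfl
  exact (Set.mem_singleton_iff.1 h3).symm

theorem pre_eq_of_comp {t : Br ℕ} {τ : Node} (h : pre t τ.length <+: τ ∨ τ <+: pre t τ.length) :
    pre t τ.length = τ := by
  rcases h with h | h
  · exact h.eq_of_length (by simp)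
  · exact (h.eq_of_length (by simp)).symm

theorem pre_succ_eq {t : Br ℕ} {σ : Node} {a : ℕ} (h : pre t (σ.length + 1) = σ ++ [a]) :
    pre t σ.length = σ ∧ t σ.length = a := by
  rw [pre_succ] at h
  have h1 := List.append_inj' h (by simp)
  exact ⟨h1.1, by simpa [Alph.toN] using h1.2⟩

theorem supf_iUnion {B : Set ℕ} (hB : B.Nonempty) {T : ℕ → Set Node} (hT : ∀ i, Supf (T i)) :
    Supf (⋃ i ∈ B, T i) := by
  refine ⟨?_, ?_, ?_⟩
  · obtain ⟨i, hi⟩ := hB
    exact Set.mem_biUnion hi (hT i).nil
  · intro σ a h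
    obtain ⟨i, hi, h1⟩ := Set.mem_iUnion₂.1 h
    exact Set.mem_biUnion hi ((hT i).down _ _ h1)
  · intro σ h
    obtain ⟨i, hi, h1⟩ := Set.mem_iUnion₂.1 h
    obtain ⟨τ, h2, h3, h4⟩ := (hT i).split σ h1
    exact ⟨τ, Set.mem_biUnion hi h2, h3, h4.mono fun a ha => Set.mem_biUnion hi ha⟩

theorem join : JoinStmt := by
  classical
  intro Λ _ _ j σ p0 hp0 a P ham had hmono hPlow hPj B hB p2 hp2 hp2B
  -- the index
  have hix : ∀ y : Pt ℕ Λ, ∃ i : ℕ, (i ∈ B ∧ y j σ.length = a i y) ∨
      ∀ i ∈ B, y j σ.length ≠ a i y := by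
    intro y
    by_cases h : ∃ i ∈ B, y j σ.length = a i y
    · obtain ⟨i, h1, h2⟩ := h
      exact ⟨i, Or.inl ⟨h1, h2⟩⟩
    · push Not at h
      exact ⟨0, Or.inr h⟩
  let idx : Pt ℕ Λ → ℕ := fun y => Nat.find (hix y)
  have hmeasEq : ∀ i, MeasurableSet {y : Pt ℕ Λ | y j σ.length = a i y} := by
    intro i
    exact measurableSet_eq_fun ((measurable_pi_apply σ.length).comp (measurable_pi_apply j)) (ham i)
  have hidxm : Measurable idx := by
    apply measurable_find
    intro k
    have : {y : Pt ℕ Λ | (k ∈ B ∧ y j σ.length = a k y) ∨ ∀ i ∈ B, y j σ.length ≠ a i y} =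
        ({y : Pt ℕ Λ | k ∈ B} ∩ {y : Pt ℕ Λ | y j σ.length = a k y}) ∪
        ⋂ i ∈ B, {y : Pt ℕ Λ | y j σ.length = a i y}ᶜ := by
      ext y
      simp only [Set.mem_ofPred_eq, Set.mem_union, Set.mem_inter_iff, Set.mem_iInter,
        Set.mem_compl_iff]
    rw [this]
    refine ((MeasurableSet.const _).inter (hmeasEq k)).union ?_
    exact MeasurableSet.biInter (Set.to_countable B) fun i _ => (hmeasEq i).compl
  choose C hCc hCJ hCd using fun i => exists_countable_depFun (a i) (ham i) (had i)
  have hidxd : ∀ y y' : Pt ℕ Λ, y j = y' j → (∀ i, ∀ k ∈ C i, y k = y' k) → idx y = idx y' := by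
    intro y y' h1 h2
    have h3 : ∀ i, a i y = a i y' := fun i => hCd i y y' (h2 i)
    simp only [idx, h1, h3]
  let T' : Λ → Pt ℕ Λ → Set Node := fun m y =>
    if m < j then p2.T m y else if m = j then ⋃ i ∈ B, (P i).T j y else (P (idx y)).T m y
  have hT1 : ∀ m < j, ∀ y, T' m y = p2.T m y := fun m hm y => by simp [T', hm]
  have hT2 : ∀ y, T' j y = ⋃ i ∈ B, (P i).T j y := fun y => by simp [T']
  have hT3 : ∀ m, j < m → ∀ y, T' m y = (P (idx y)).T m y := fun m hm y => by
    simp [T', hm.not_gt, hm.ne']
  let P' : Cond ℕ Λ :=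
    { T := T'
      S := p2.S ∪ (⋃ i, (P i).S) ∪ {j} ∪ ⋃ i, C i
      good := by
        intro m y
        rcases lt_trichotomy m j with h | h | h
        · rw [hT1 m h]; exact p2.good m y
        · subst h
          rw [hT2]
          exact supf_iUnion hB.nonempty fun i => (P i).good m y
        · rw [hT3 m h]; exact (P _).good m y
      scount := ((p2.scount.union (Set.countable_iUnion fun i => (P i).scount)).union
        (Set.countable_singleton j)).union (Set.countable_iUnion hCc)
      full' := by
        intro m hm y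
        simp only [Set.mem_union, Set.mem_iUnion, Set.mem_singleton_iff, not_or,
          not_exists] at hm
        rcases lt_trichotomy m j with h | h | h
        · rw [hT1 m h]; exact p2.full' m hm.1.1.1 y
        · exact (hm.1.2 h).elim
        · rw [hT3 m h]; exact (P _).full' m (hm.1.1.2 _) y
      dep := by
        intro m y y' h
        rcases lt_trichotomy m j with hm | hm | hm
        · rw [hT1 m hm, hT1 m hm]
          exact p2.dep m y y' fun k hk hkm => h k (Or.inl (Or.inl (Or.inl hk))) hkm
        · subst hm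
          rw [hT2, hT2]
          refine Set.iUnion_congr fun i => Set.iUnion_congr fun _ => ?_
          exact (P i).dep m y y' fun k hk hkm =>
            h k (Or.inl (Or.inl (Or.inr (Set.mem_iUnion.2 ⟨i, hk⟩)))) hkm
        · rw [hT3 m hm, hT3 m hm]
          have h1 : idx y = idx y' := by
            apply hidxd
            · exact h j (Or.inl (Or.inr rfl)) hm
            · intro i k hk
              exact h k (Or.inr (Set.mem_iUnion.2 ⟨i, hk⟩)) ((hCJ i hk).trans hm)
          rw [h1]
          exact (P _).dep m y y' fun k hk hkm =>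
            h k (Or.inl (Or.inl (Or.inr (Set.mem_iUnion.2 ⟨_, hk⟩)))) hkm
      meas := by
        intro m
        rcases lt_trichotomy m j with hm | hm | hm
        · have : T' m = p2.T m := funext fun y => hT1 m hm y
          rw [this]; exact p2.meas m
        · subst hm
          have : T' m = fun y => ⋃ i ∈ B, (P i).T m y := funext fun y => hT2 y
          rw [this]
          apply measurable_setNode
          intro τ
          have : {y : Pt ℕ Λ | τ ∈ ⋃ i ∈ B, (P i).T m y} = ⋃ i ∈ B, {y | τ ∈ (P i).T m y} := by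
            ext y; simp
          rw [this]
          exact MeasurableSet.biUnion (Set.to_countable B) fun i _ =>
            (P i).meas m (measurableSet_mem_node τ)
        · have : T' m = fun y => (P (idx y)).T m y := funext fun y => hT3 m hm y
          rw [this]
          intro A hA
          have : (fun y => (P (idx y)).T m y) ⁻¹' A =
              ⋃ n, (idx ⁻¹' {n}) ∩ ((P n).T m ⁻¹' A) := by
            ext y
            simp
          rw [this]
          exact MeasurableSet.iUnion fun n =>
            (hidxm (measurableSet_singleton n)).inter ((P n).meas m hA) }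
  have hP'T : ∀ m y, P'.T m y = T' m y := fun _ _ => rfl
  -- points of `P'` belong to `p0`
  have hP'0 : ∀ y ∈ P'.body, y ∈ p0.body := by
    intro y hy
    apply hp2
    rw [hp2B.body_eq]
    intro m hm
    have h1 := hy m
    rw [hP'T, hT1 m hm] at h1
    exact h1
  have hstem : ∀ i, ∀ y ∈ p0.body, σ ++ [a i y] ∈ (P i).T j y := by
    intro i y hy
    obtain ⟨t, ht⟩ := body_nonempty ((P i).good j y)
    have h1 : pre t (σ ++ [a i y]).length = σ ++ [a i y] :=
      pre_eq_of_comp (hPj i y hy _ (ht _))
    rw [← h1]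
    exact ht _
  refine ⟨P', ?_, fun m hm y => by rw [hP'T, hT1 m hm], ?_, ?_⟩
  · intro y hy
    have hy0 := hP'0 y hy
    rw [hP'T, hT2]
    refine ⟨?_, ?_, ?_⟩
    · intro ρ hρ
      obtain ⟨i, hi, h1⟩ := Set.mem_iUnion₂.1 hρ
      rcases hPj i y hy0 ρ h1 with h2 | h2
      · rcases List.prefix_concat_iff.1 h2 with h3 | h3
        · right; rw [h3]; exact List.prefix_append _ _
        · exact Or.inl h3
      · exact Or.inr ((List.prefix_append _ _).trans h2)
    · obtain ⟨i, hi⟩ := hB.nonempty
      exact Set.mem_biUnion hi (((P i).good j y).down _ _ (hstem i y hy0))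
    · apply (hB.image (f := fun i => a i y) ((hmono y hy0).injective.injOn)).mono
      rintro _ ⟨i, hi, rfl⟩
      exact Set.mem_biUnion hi (hstem i y hy0)
  · intro y hy
    have hy0 := hP'0 y hy
    have hyj : y j ∈ body ℕ (⋃ i ∈ B, (P i).T j y) := by
      have := hy j
      rwa [hP'T, hT2] at this
    have hpre : ∀ n, σ.length + 1 ≤ n → ∃ i ∈ B, pre (y j) n ∈ (P i).T j y ∧
        pre (y j) (σ.length + 1) = σ ++ [a i y] := by
      intro n hn
      obtain ⟨i, hi, h1⟩ := Set.mem_iUnion₂.1 (hyj n)
      refine ⟨i, hi, h1, ?_⟩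
      have h2 : pre (y j) (σ.length + 1) ∈ (P i).T j y :=
        ((P i).good j y).tree.mem_of_isPrefix (pre_isPrefix _ hn) h1
      have h3 := hPj i y hy0 _ h2
      have h4 : σ.length + 1 = (σ ++ [a i y]).length := by simp
      rw [h4] at h3 ⊢
      exact pre_eq_of_comp h3
    obtain ⟨i0, hi0, h1, h2⟩ := hpre _ le_rfl
    have h3 := pre_succ_eq h2
    have hyj0 : y j ∈ body ℕ ((P i0).T j y) := by
      intro n
      rcases le_total (σ.length + 1) n with hn | hn
      · obtain ⟨i, hi, h4, h5⟩ := hpre n hn
        have h6 : a i y = a i0 y := by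
          rw [← (pre_succ_eq h5).2, h3.2]
        rwa [(hmono y hy0).injective h6] at h4
      · exact ((P i0).good j y).tree.mem_of_isPrefix (pre_isPrefix _ hn) h1
    have hidx : idx y = i0 := by
      have h4 := Nat.find_spec (hix y)
      rcases h4 with ⟨_, h4⟩ | h4
      · apply (hmono y hy0).injective
        change a (idx y) y = a i0 y
        rw [← h3.2]
        exact h4.symm
      · exact (h4 i0 hi0 h3.2).elim
    refine ⟨i0, hi0, fun m => ?_, h3.2⟩
    rcases lt_trichotomy m j with h | h | h
    · rw [hPlow i0 m h y]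
      exact hy0 m
    · rw [h]; exact hyj0
    · have h4 := hy m
      rwa [hP'T, hT3 m h, hidx] at h4
  · intro L hjL hL hPL m hm y
    have h1 : j < m := by
      rcases lt_trichotomy m j with h | h | h
      · exact (hm (hL h.le hjL)).elim
      · exact (hm (h ▸ hjL)).elim
      · exact h
    rw [hP'T, hT3 m h1]
    exact hPL _ m hm y

end Pool.Agent.Men.RR.H63
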