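import Pool.Agent.Helper22_Men.Stmts

/-!
# Squad MEN: modules SEQ, SEQM
-/

open MeasureTheory Set

namespace Pool.Agent.Men.RR.H63

theorem seq : SeqStmt := by
  intro K _ _
  obtain ⟨f, hf⟩ := exists_surjective_nat K
  refine ⟨fun m => f (Nat.unpair m).1, fun k n => ?_⟩
  obtain ⟨i, hi⟩ := hf k
  refine ⟨Nat.pair i n, Nat.right_le_pair i n, ?_⟩
  simp [Nat.unpair_pair, hi]

theorem seqm : SeqmStmt := by
  classical
  intro X T _ _ 𝓑 V Nx hV hinf htail b0 hb0 hstep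
  obtain ⟨e, he⟩ := seq (Option (X × T))
  let St : Type := {s : Finset ℕ × Set ℕ // s.2 ∈ 𝓑 ∧ s.2 ⊆ b0 ∧ (↑s.1 : Set ℕ) ⊆ b0}
  have hex : ∀ (k : Option (X × T)) (s : St), ∃ s' : St, ∃ μ ∈ s.1.2, s'.1.1 = insert μ s.1.1 ∧
      s'.1.2 ⊆ s.1.2 ∩ Ioi μ ∧ ∀ x t, k = some (x, t) → V x (↑s.1.1 ∪ s.1.2) →
        ∃ x', Nx t x x' s'.1.1 ∧ V x' (↑s'.1.1 ∪ s'.1.2) := by
    rintro k ⟨⟨c, b⟩, hb, hbb, hcb⟩
    obtain ⟨μ, hμ⟩ := (hinf b hb).nonempty
    have hb1 := htail b hb μ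
    have hc' : (↑(insert μ c) : Set ℕ) ⊆ b0 := by
      rw [Finset.coe_insert]
      exact Set.insert_subset (hbb hμ) hcb
    have hsub : (↑(insert μ c) : Set ℕ) ∪ (b ∩ Ioi μ) ⊆ ↑c ∪ b := by
      rintro z (hz | hz)
      · rw [Finset.coe_insert] at hz
        rcases hz with rfl | hz
        · exact Or.inr hμ
        · exact Or.inl hz
      · exact Or.inr hz.1
    by_cases hk : ∃ x t, k = some (x, t) ∧ V x (↑c ∪ b)
    · obtain ⟨x, t, hk1, hk2⟩ := hk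
      obtain ⟨x', b', h1, h2, h3, h4⟩ := hstep t x (insert μ c) (b ∩ Ioi μ) hb1
        (fun z hz => hbb hz.1) (hV _ _ _ hsub hk2)
      refine ⟨⟨⟨insert μ c, b'⟩, h1, fun z hz => hbb (h2 hz).1, hc'⟩, μ, hμ, rfl, h2, ?_⟩
      intro x0 t0 h0 _
      rw [hk1] at h0
      obtain ⟨rfl, rfl⟩ : x = x0 ∧ t = t0 := by simpa using h0
      exact ⟨x', h3, h4⟩
    · refine ⟨⟨⟨insert μ c, b ∩ Ioi μ⟩, hb1, fun z hz => hbb hz.1, hc'⟩, μ, hμ, rfl,
        Set.Subset.refl _, ?_⟩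
      intro x0 t0 h0 h1
      exact (hk ⟨x0, t0, h0, h1⟩).elim
  choose nx μ hμ h1 h2 h3 using hex
  let s : ℕ → St := fun n => Nat.rec ⟨⟨∅, b0⟩, hb0, Set.Subset.refl _, by simp⟩
    (fun n s => nx (e n) s) n
  have hs : ∀ n, s (n + 1) = nx (e n) (s n) := fun n => rfl
  have hcs : ∀ n, (s (n + 1)).1.1 = insert (μ (e n) (s n)) (s n).1.1 := fun n => h1 _ _
  have hbs : ∀ n, (s (n + 1)).1.2 ⊆ (s n).1.2 ∩ Ioi (μ (e n) (s n)) := fun n => h2 _ _
  have hdec : ∀ n, (↑(s (n + 1)).1.1 : Set ℕ) ∪ (s (n + 1)).1.2 ⊆ ↑(s n).1.1 ∪ (s n).1.2 := by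
    intro n
    rintro z (hz | hz)
    · rw [hcs, Finset.coe_insert] at hz
      rcases hz with rfl | hz
      · exact Or.inr (hμ _ _)
      · exact Or.inl hz
    · exact Or.inr (hbs n hz).1
  have hdec' : ∀ m n, m ≤ n → (↑(s n).1.1 : Set ℕ) ∪ (s n).1.2 ⊆ ↑(s m).1.1 ∪ (s m).1.2 := by
    intro m n hmn
    induction n, hmn using Nat.le_induction with
    | base => exact Set.Subset.refl _
    | succ n _ ih => exact (hdec n).trans ih
  have hge : ∀ n, ∀ z ∈ (s n).1.2, n ≤ z := by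
    intro n
    induction n with
    | zero => intro z _; exact Nat.zero_le _
    | succ n ih =>
      intro z hz
      have h4 := hbs n hz
      have h5 := ih _ (hμ (e n) (s n))
      have h6 : μ (e n) (s n) < z := h4.2
      omega
  refine ⟨fun n => (s n).1.1, fun n => (s n).1.2, rfl, rfl, ?_, fun m => (s m).2.1, ?_, hdec, ?_, ?_⟩
  · apply monotone_nat_of_le_succ
    intro n
    change (s n).1.1 ≤ (s (n + 1)).1.1
    rw [hcs]
    exact Finset.subset_insert _ _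
  · intro m
    exact Set.union_subset (s m).2.2.2 (s m).2.2.1
  · apply Set.infinite_of_forall_exists_gt
    intro a
    refine ⟨μ (e (a + 1)) (s (a + 1)), Set.mem_iUnion.2 ⟨a + 2, ?_⟩, ?_⟩
    · change μ (e (a + 1)) (s (a + 1)) ∈ (↑(s (a + 1 + 1)).1.1 : Set ℕ)
      rw [hcs (a + 1)]
      simp
    · exact hge (a + 1) _ (hμ _ _)
  · intro x m t hx
    obtain ⟨k, hk1, hk2⟩ := he (some (x, t)) m
    refine ⟨k + 1, by omega, ?_⟩
    have h5 := h3 (e k) (s k) x t hk2 (hV _ _ _ (hdec' m k hk1) hx)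
    exact h5

end Pool.Agent.Men.RR.H63
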