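import Pool.Agent.Helper63_Men.Seq

/-!
# Squad MEN: module SEQP
-/

open MeasureTheory Set

namespace Pool.Agent.Men.RR.H63

variable {Λ : Type} [LinearOrder Λ]

theorem ctl_mono {N : Set (Cond ℕ Λ)} {W : ℕ → Set (Pt ℕ Λ)} {P : Cond ℕ Λ} {j : Λ} {σ : Node}
    {A A' : Set ℕ} (h : A ⊆ A') (hc : Ctl N W P j σ A') : Ctl N W P j σ A :=
  fun k hk => hc k (h hk)

theorem inv_mono {N : Set (Cond ℕ Λ)} {L : Set Λ} {W : ℕ → Set (Pt ℕ Λ)} {P : Cond ℕ Λ} {j : Λ}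
    {σ : Node} {A A' : Set ℕ} (h : A ⊆ A') (hc : Inv N L W P j σ A') : Inv N L W P j σ A :=
  ⟨hc.mem, hc.below, hc.stem, ctl_mono h hc.ctl⟩

/-- Control for finitely many elements at the same time. -/
theorem ctl_finset {N : Set (Cond ℕ Λ)} {W : ℕ → Set (Pt ℕ Λ)} {P : Cond ℕ Λ} {j : Λ} {σ : Node}
    {A : Set ℕ} (hc : Ctl N W P j σ A) (c : Finset ℕ) (hcA : (↑c : Set ℕ) ⊆ A) (h : Cond ℕ Λ)
    (hN : h ∈ N) (hB : h.Below (Iio j)) (hP : h ≤ P.restr (Iio j)) :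
    ∃ h' ∈ N, h'.Below (Iio j) ∧ h' ≤ h ∧ ∃ m : ℕ, ∀ k ∈ c, ∀ y ∈ P.body, y ∈ h'.body →
      m ≤ y j σ.length → y ∈ W k := by
  classical
  induction c using Finset.induction_on with
  | empty => exact ⟨h, hN, hB, le_rfl, 0, by simp⟩
  | insert k c _ ih =>
    obtain ⟨h1, h1N, h1B, h1h, m1, hm1⟩ := ih (by
      intro z hz
      exact hcA (by simp at hz ⊢; exact Or.inr hz))
    obtain ⟨h2, h2N, h2B, h2h, m2, hm2⟩ := hc k (hcA (by simp)) h1 h1N h1B (h1h.trans hP)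
    refine ⟨h2, h2N, h2B, h2h.trans h1h, max m1 m2, ?_⟩
    intro k' hk' y hy hy2 hm
    rcases Finset.mem_insert.1 hk' with rfl | hk'
    · exact hm2 y hy hy2 ((le_max_right _ _).trans hm)
    · exact hm1 k' hk' y hy (h2h hy2) ((le_max_left _ _).trans hm)

theorem digit_of_sub {T : Set Node} {σ : Node} {a : ℕ} {t : Br ℕ}
    (h : t ∈ body ℕ (sub T (σ ++ [a]))) : t σ.length = a := by
  have h1 := (mem_body_sub.1 h).2
  rw [List.length_append, List.length_singleton, pre_succ] at h1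
  have h2 := List.append_inj_right' h1 rfl
  simpa [Alph.toN] using h2

theorem seqp : SeqpStmt := by
  intro Λ _ _ _ N L lev W 𝓑 P1 b1 hL hpre
  obtain ⟨n0, _, P0, hP0, σ0, b0, hb0, hb01, hinv0⟩ :=
    hpre.dense P1 hpre.P1N le_rfl hpre.P1L b1 hpre.b1B (Set.Subset.refl _) 0
  have : Countable N := hpre.clo.count.to_subtype
  let V : (N × ℕ × Node) → Set ℕ → Prop := fun x A =>
    x.1.1 ≤ P1 ∧ Inv N L W x.1.1 (lev x.2.1) x.2.2 A
  let Nx : (N × ℕ) → (N × ℕ × Node) → (N × ℕ × Node) → Finset ℕ → Prop := fun t x x' c =>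
    t.1.1.Below (Iio (lev x.2.1)) → t.1.1 ≤ x.1.1.restr (Iio (lev x.2.1)) →
      x'.1.1 ≤ Cond.glue t.1.1 x.1.1 (Iio (lev x.2.1)) ∧
      (∃ a ≥ t.2, ∀ y ∈ x'.1.1.body, x'.1.1.T (lev x.2.1) y ⊆
        sub (x.1.1.T (lev x.2.1) y) (x.2.2 ++ [a])) ∧ x.2.1 < x'.2.1 ∧
      ∀ k ∈ c, x'.1.1.body ⊆ W k
  obtain ⟨c, b, hc0, hb0', hcm, hbB, hcb, _, hcinf, hcl⟩ := seqm (N × ℕ × Node) (N × ℕ) 𝓑 V Nx
    (fun x A A' h hx => ⟨hx.1, inv_mono h hx.2⟩) hpre.inf hpre.tail b0 hb0 (by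
      rintro ⟨⟨h, hhN⟩, a0⟩ ⟨⟨P, hPN⟩, n, σ⟩ c b hb hbb ⟨hPP1, hinv⟩
      by_cases hh : h.Below (Iio (lev n)) ∧ h ≤ P.restr (Iio (lev n))
      · obtain ⟨hh1, hh2⟩ := hh
        obtain ⟨h', h'N, h'B, h'h, m, hm⟩ := ctl_finset hinv.ctl c Set.subset_union_left h hhN
          hh1 hh2
        obtain ⟨a, ha, h'', h''N, h''B, h''h, hdig⟩ := hpre.digit P hPN n σ hinv.stem h' h'N h'B
          (h'h.trans hh2) (max a0 m)
        have hjL : lev n ∈ L := hpre.levL n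
        have hIL : Iio (lev n) ⊆ L := fun i hi => hL (le_of_lt hi) hjL
        have h''P : h'' ≤ P.restr (Iio (lev n)) := h''h.trans (h'h.trans hh2)
        let Q : Cond ℕ Λ := Cond.glue h'' P (Iio (lev n))
        have hQN : Q ∈ N := hpre.clo.glue h'' h''N P hPN _ (isLowerSet_Iio _)
        have hQP : Q ≤ P := Cond.glue_le_right h''B h''P
        have hQh : Q ≤ h'' := Cond.glue_le_left h''B
        have hQL : Q.Below L := Cond.glue_below hIL hinv.below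
        let Pa : Cond ℕ Λ := Q.node (lev n) (σ ++ [a])
        have hPaN : Pa ∈ N := hpre.clo.node Q hQN _ _
        have hPaQ : Pa ≤ Q := Q.node_le _ _
        have hPaL : Pa.Below L := Cond.node_below hQL hjL _
        have hPaT : ∀ y ∈ Q.body, Pa.T (lev n) y = sub (P.T (lev n) y) (σ ++ [a]) := by
          intro y hy
          have h1 : Q.T (lev n) y = P.T (lev n) y :=
            Cond.glue_T' _ _ (by simp) y
          have h2 : σ ++ [a] ∈ Q.T (lev n) y := by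
            rw [h1]; exact hdig y (hQh hy)
          rw [← h1]
          exact Q.node_T h2
        obtain ⟨n', hn', P', hP', σ', b', hb', hbb', hinv'⟩ := hpre.dense Pa hPaN
          (hPaQ.trans (hQP.trans hPP1)) hPaL b hb (hbb.trans hb01) (n + 1)
        have hW : ∀ k ∈ c, P'.body ⊆ W k := by
          intro k hk y hy
          have hyPa : y ∈ Pa.body := hP' hy
          have hyQ : y ∈ Q.body := hPaQ hyPa
          have h3 : y (lev n) ∈ body ℕ (sub (P.T (lev n) y) (σ ++ [a])) := by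
            rw [← hPaT y hyQ]; exact hyPa (lev n)
          apply hm k hk y (hQP hyQ) (h''h (hQh hyQ))
          rw [digit_of_sub h3]
          exact (le_max_right _ _).trans ha
        refine ⟨⟨⟨P', hinv'.mem⟩, n', σ'⟩, b', hb', hbb', ?_, ?_⟩
        · intro _ _
          refine ⟨?_, ⟨a, (le_max_left _ _).trans ha, ?_⟩, by change n < n'; omega, hW⟩
          · change P' ≤ Cond.glue h P (Iio (lev n))
            have h4 : P' ≤ h := by
              exact hP'.trans (hPaQ.trans (hQh.trans (h''h.trans h'h)))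
            exact Cond.le_glue h4 (hP'.trans (hPaQ.trans hQP))
          · intro y hy
            change P'.T (lev n) y ⊆ sub (P.T (lev n) y) (σ ++ [a])
            rw [← hPaT y (hPaQ (hP' hy))]
            exact Cond.T_subset hP' hy _
        · refine ⟨hP'.trans (hPaQ.trans (hQP.trans hPP1)), hinv'.mem, hinv'.below, hinv'.stem, ?_⟩
          rintro k (hk | hk) g hgN hgB hgP
          · exact ⟨g, hgN, hgB, le_rfl, 0, fun y hy _ _ => hW k hk hy⟩
          · exact hinv'.ctl k hk g hgN hgB hgP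
      · refine ⟨⟨⟨P, hPN⟩, n, σ⟩, b, hb, Set.Subset.refl _, ?_, hPP1, hinv⟩
        intro h1 h2
        exact (hh ⟨h1, h2⟩).elim)
  refine ⟨c, b, ⟨P0, hP0, n0, σ0, ?_⟩, hc0, hcm, ?_, hcinf, ?_⟩
  · rw [hc0, hb0']
    simpa using hinv0
  · intro m z hz
    exact hb01 (hcb m (Or.inl hz))
  · intro P hPP1 n σ m hinv a0 h hhN hhB hhP
    obtain ⟨m', hm', ⟨⟨P', hP'N⟩, n', σ'⟩, hnx, hP'1, hinv'⟩ :=
      hcl ⟨⟨P, hinv.mem⟩, n, σ⟩ m ⟨⟨h, hhN⟩, a0⟩ ⟨hPP1, hinv⟩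
    obtain ⟨h1, ⟨a, ha, h2⟩, h3, h4⟩ := hnx hhB hhP
    exact ⟨P', hP'N, h1, a, ha, h2, m', hm', n', h3, σ', hinv', h4⟩

end Pool.Agent.Men.RR.H63
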